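import Pool.Agent.W781.LW.Stm

/-!
The isotropic version of the commutator inequality from the main theorem.
-/

set_option autoImplicit false

open Matrix Finset Pool.Agent.W781.LW
open scoped InnerProductSpace

namespace Pool.Agent.W181.LW

variable {n : ℕ}

/-- vectorisation -/
noncomputable def vc (A : Matrix (Fin n) (Fin n) ℂ) : EuclideanSpace ℂ (Fin n × Fin n) :=
  WithLp.toLp 2 (fun p => A p.1 p.2)

/-- matrix of a vector -/
noncomputable def mt (v : EuclideanSpace ℂ (Fin n × Fin n)) : Matrix (Fin n) (Fin n) ℂ :=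
  Matrix.of (fun i j => v (i, j))

lemma vc_mt (v : EuclideanSpace ℂ (Fin n × Fin n)) : vc (mt v) = v := by
  ext p
  simp [vc, mt]

lemma inner_vc (A C : Matrix (Fin n) (Fin n) ℂ) :
    ⟪vc C, vc A⟫_ℂ = trace (A * Cᴴ) := by
  simp only [vc, PiLp.inner_apply, Matrix.trace, Matrix.diag, Matrix.mul_apply,
    Matrix.conjTranspose_apply, Fintype.sum_prod_type]
  refine Finset.sum_congr rfl fun i _ => Finset.sum_congr rfl fun j _ => ?_
  simp

lemma norm_vc (A : Matrix (Fin n) (Fin n) ℂ) : ‖vc A‖ ^ 2 = fro A := by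
  rw [EuclideanSpace.norm_sq_eq, fro, Fintype.sum_prod_type]
  rfl

lemma fro_conjTranspose (A : Matrix (Fin n) (Fin n) ℂ) : fro Aᴴ = fro A := by
  unfold fro
  rw [Finset.sum_comm]
  simp [Matrix.conjTranspose_apply]

lemma fro_nonneg (A : Matrix (Fin n) (Fin n) ℂ) : 0 ≤ fro A := by
  unfold fro; positivity

lemma trace_alt (X Y U : Matrix (Fin n) (Fin n) ℂ) :
    trace (Y * com X U) = - trace (U * com X Y) := by
  unfold com
  rw [Matrix.mul_sub, Matrix.mul_sub, Matrix.trace_sub, Matrix.trace_sub]
  have h1 : trace (Y * (X * U)) = trace (U * (Y * X)) := by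
    rw [← Matrix.mul_assoc, Matrix.trace_mul_comm]
  have h2 : trace (Y * (U * X)) = trace (U * (X * Y)) := by
    rw [Matrix.trace_mul_comm, Matrix.mul_assoc]
  rw [h1, h2]
  ring

theorem iso : S_MAIN → S_ISO := by
  intro hM n m X Y hon his
  classical
  set E := EuclideanSpace ℂ (Fin n × Fin n)
  have hY : Orthonormal ℂ (fun a => vc (Y a)) := by
    rw [orthonormal_iff_ite]
    intro a b
    rw [inner_vc, hon b a]
    by_cases h : a = b
    · subst h; simp
    · rw [if_neg h, if_neg (fun h' => h h'.symm)]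
  set w : Fin m → E := fun a => vc ((com X (Y a))ᴴ) with hw
  have hperp : ∀ a b, ⟪w b, vc (Y a)⟫_ℂ = 0 := by
    intro a b
    rw [hw]
    simp only
    rw [inner_vc, conjTranspose_conjTranspose, his a b]
  set S : Submodule ℂ E := Submodule.span ℂ (Set.range w) with hS
  have hSY : ∀ a, ∀ v ∈ S, ⟪v, vc (Y a)⟫_ℂ = 0 := by
    intro a v hv
    refine Submodule.span_induction (p := fun v _ => ⟪v, vc (Y a)⟫_ℂ = 0) ?_ ?_ ?_ ?_ hv
    · rintro _ ⟨b, rfl⟩
      exact hperp a b
    · simp
    · intro x y _ _ hx hy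
      rw [inner_add_left, hx, hy, add_zero]
    · intro c x _ hx
      rw [inner_smul_left, hx, mul_zero]
  set k := Module.finrank ℂ S with hk
  have hkm : k ≤ m := by
    have := finrank_range_le_card (R := ℂ) w
    simpa [Set.finrank, hk, hS] using this
  set b := stdOrthonormalBasis ℂ S with hb
  set U : Fin k → Matrix (Fin n) (Fin n) ℂ := fun i => mt ((b i : S) : E) with hU
  have hvU : ∀ i, vc (U i) = ((b i : S) : E) := fun i => vc_mt _
  have hUo : ∀ i j, ⟪vc (U i), vc (U j)⟫_ℂ = if i = j then 1 else 0 := by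
    intro i j
    rw [hvU, hvU]
    have := (orthonormal_iff_ite.mp b.orthonormal) i j
    simpa using this
  -- combined family
  set Z : Fin (m + k) → Matrix (Fin n) (Fin n) ℂ := Fin.append Y U with hZ
  have hZo : ∀ a b, ⟪vc (Z a), vc (Z b)⟫_ℂ = if a = b then 1 else 0 := by
    intro a b
    induction a using Fin.addCases with
    | left a =>
      induction b using Fin.addCases with
      | left b =>
        rw [hZ, Fin.append_left, Fin.append_left]
        have := (orthonormal_iff_ite.mp hY) a b
        rw [this]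
        by_cases h : a = b
        · subst h; simp
        · rw [if_neg h, if_neg]
          intro h'
          exact h (Fin.castAdd_injective m k h')
      | right b =>
        rw [hZ, Fin.append_left, Fin.append_right, if_neg]
        · rw [← inner_conj_symm, hvU, hSY a _ (Submodule.coe_mem _)]
          simp
        · intro h'
          have := congrArg Fin.val h'
          simp at this
          omega
    | right a =>
      induction b using Fin.addCases with
      | left b =>
        rw [hZ, Fin.append_left, Fin.append_right, if_neg]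
        · rw [hvU]
          exact hSY b _ (Submodule.coe_mem _)
        · intro h'
          have := congrArg Fin.val h'
          simp at this
          omega
      | right b =>
        rw [hZ, Fin.append_right, Fin.append_right, hUo]
        by_cases h : a = b
        · subst h; simp
        · rw [if_neg h, if_neg]
          intro h'
          exact h (Fin.natAdd_injective k m h')
  have hfroZ : ∀ a, fro (Z a) = 1 := by
    intro a
    have h1 := hZo a a
    rw [if_pos rfl] at h1
    rw [← norm_vc]
    have h2 : ((‖vc (Z a)‖ ^ 2 : ℝ) : ℂ) = 1 := by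
      rw [← h1, inner_self_eq_norm_sq_to_K]
      simp
    exact_mod_cast h2
  have hmain := hM n (m + k) X Z 1 zero_le_one
    (by
      intro a b hab
      rw [← inner_vc, hZo b a, if_neg (fun h => hab h.symm)])
    (fun a => (hfroZ a).le)
  rw [Fin.sum_univ_add] at hmain
  have hs1 : ∑ a : Fin (m + k), fro (Z a) = (m : ℝ) + k := by
    simp [hfroZ]
  rw [hs1] at hmain
  simp only [hZ, Fin.append_left, Fin.append_right] at hmain
  -- lower bound for the second sum
  have hlow : ∑ a, fro (com X (Y a)) ≤ ∑ i, fro (com X (U i)) := by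
    have h1 : ∀ a, fro (com X (Y a)) = ∑ i, ‖⟪vc (U i), w a⟫_ℂ‖ ^ 2 := by
      intro a
      have hwS : w a ∈ S := Submodule.subset_span ⟨a, rfl⟩
      have h2 := b.sum_sq_norm_inner_right ⟨w a, hwS⟩
      have h3 : ‖(⟨w a, hwS⟩ : S)‖ ^ 2 = fro (com X (Y a)) := by
        have : ‖(⟨w a, hwS⟩ : S)‖ = ‖w a‖ := rfl
        rw [this, hw]
        simp only
        rw [norm_vc, fro_conjTranspose]
      rw [← h3, ← h2]
      refine Finset.sum_congr rfl fun i _ => ?_
      rw [hvU]
      rfl
    have h4 : ∀ i, ∑ a, ‖⟪vc (U i), w a⟫_ℂ‖ ^ 2 ≤ fro (com X (U i)) := by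
      intro i
      have h5 := hY.sum_inner_products_le (x := vc ((com X (U i))ᴴ)) (s := Finset.univ)
      rw [norm_vc, fro_conjTranspose] at h5
      refine le_trans (le_of_eq ?_) h5
      refine Finset.sum_congr rfl fun a _ => ?_
      congr 1
      have e1 : ⟪vc (Y a), vc ((com X (U i))ᴴ)⟫_ℂ = star (trace (Y a * com X (U i))) := by
        rw [inner_vc, ← Matrix.conjTranspose_mul, Matrix.trace_conjTranspose]
      have e2 : ⟪w a, vc (U i)⟫_ℂ = trace (U i * com X (Y a)) := by
        rw [hw]
        simp only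
        rw [inner_vc, conjTranspose_conjTranspose]
      rw [e1, norm_star, trace_alt, norm_neg, ← e2, norm_inner_symm]
    simp_rw [h1]
    rw [Finset.sum_comm]
    exact Finset.sum_le_sum fun i _ => h4 i
  have hkr : (k : ℝ) ≤ m := by exact_mod_cast hkm
  have hX := fro_nonneg X
  nlinarith [mul_le_mul_of_nonneg_right hkr hX]

lemma fro_smul (c : ℂ) (A : Matrix (Fin n) (Fin n) ℂ) : fro (c • A) = ‖c‖ ^ 2 * fro A := by
  unfold fro
  simp only [Matrix.smul_apply, smul_eq_mul, norm_mul, mul_pow, Finset.mul_sum]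

lemma com_smul (c : ℂ) (A X : Matrix (Fin n) (Fin n) ℂ) : com X (c • A) = c • com X A := by
  unfold com
  rw [Matrix.mul_smul, Matrix.smul_mul, smul_sub]

lemma eq_zero_of_fro (A : Matrix (Fin n) (Fin n) ℂ) (h : fro A = 0) : A = 0 := by
  ext i j
  unfold fro at h
  have h1 : ∀ i ∈ (Finset.univ : Finset (Fin n)), (0:ℝ) ≤ ∑ j, ‖A i j‖ ^ 2 :=
    fun i _ => by positivity
  have h2 := (Finset.sum_eq_zero_iff_of_nonneg h1).mp h i (Finset.mem_univ _)
  have h3 : ∀ j ∈ (Finset.univ : Finset (Fin n)), (0:ℝ) ≤ ‖A i j‖ ^ 2 := fun j _ => by positivity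
  have h4 := (Finset.sum_eq_zero_iff_of_nonneg h3).mp h2 j (Finset.mem_univ _)
  simpa using h4

lemma trace_self (A : Matrix (Fin n) (Fin n) ℂ) : trace (A * Aᴴ) = (fro A : ℂ) := by
  rw [← inner_vc, inner_self_eq_norm_sq_to_K, ← norm_vc]
  simp

theorem fund : S_ISO → S_FUND := by
  intro hI n m B C M hM hor hle his
  classical
  set t : Fin m → ℝ := fun a => fro (C a) with ht
  have ht0 : ∀ a, 0 ≤ t a := fun a => fro_nonneg _
  set Y : Fin m → Matrix (Fin n) (Fin n) ℂ := fun a => (((Real.sqrt (t a))⁻¹ : ℝ) : ℂ) • C a with hY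
  set T : Fin m → ℝ := fun a => fro (com B (Y a)) with hT
  have hT0 : ∀ a, 0 ≤ T a := fun a => fro_nonneg _
  have hnorm : ∀ a, ‖(((Real.sqrt (t a))⁻¹ : ℝ) : ℂ)‖ ^ 2 = (t a)⁻¹ := by
    intro a
    rw [Complex.norm_real, Real.norm_eq_abs, sq_abs, inv_pow, Real.sq_sqrt (ht0 a)]
  have hfc : ∀ a, fro (com B (C a)) = t a * T a := by
    intro a
    by_cases h0 : t a = 0
    · have hC : C a = 0 := eq_zero_of_fro _ h0
      rw [h0, zero_mul, hC]
      simp [com, fro]
    · rw [hT]
      simp only
      rw [hY]
      simp only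
      rw [com_smul, fro_smul, hnorm, ← mul_assoc, mul_inv_cancel₀ h0, one_mul]
  set fB := fro B with hfB
  have hfB0 : 0 ≤ fB := fro_nonneg _
  set S : Finset (Fin m) := Finset.univ.filter (fun a => t a ≠ 0 ∧ fB < T a) with hS
  have hSm : ∀ a, a ∈ S ↔ t a ≠ 0 ∧ fB < T a := by
    intro a; simp [hS]
  set e := S.equivFin with he
  have key : ∑ a ∈ S, T a ≤ ((S.card : ℝ) + 1) * fB := by
    have h1 := hI n S.card B (fun i => Y (e.symm i)) ?_ ?_
    · have h2 : ∑ a ∈ S, T a = ∑ i, fro (com B (Y (e.symm i))) := by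
        rw [← Finset.sum_coe_sort S T]
        exact (Equiv.sum_comp e.symm (fun a : S => T (a : Fin m))).symm
      rw [h2]; exact h1
    · intro i j
      have hYY : trace (Y (e.symm i) * (Y (e.symm j))ᴴ) =
          ((((Real.sqrt (t (e.symm i)))⁻¹ : ℝ) : ℂ) * (((Real.sqrt (t (e.symm j)))⁻¹ : ℝ) : ℂ)) *
            trace (C (e.symm i) * (C (e.symm j))ᴴ) := by
        rw [hY]
        simp only
        rw [conjTranspose_smul, Matrix.smul_mul, Matrix.mul_smul, trace_smul, trace_smul,
          smul_eq_mul, smul_eq_mul, mul_assoc]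
        simp
      rw [hYY]
      by_cases hij : i = j
      · subst hij
        rw [if_pos rfl, trace_self]
        have hne : t (e.symm i) ≠ 0 := ((hSm _).mp (e.symm i).2).1
        have hsq : (Real.sqrt (t (e.symm i)))⁻¹ * (Real.sqrt (t (e.symm i)))⁻¹ *
            fro (C (e.symm i)) = 1 := by
          have : fro (C (e.symm i)) = t (e.symm i) := rfl
          rw [this, ← mul_inv, Real.mul_self_sqrt (ht0 _), inv_mul_cancel₀ hne]
        exact_mod_cast hsq
      · rw [if_neg hij, hor _ _ ?_, mul_zero]
        intro h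
        exact hij (e.symm.injective (Subtype.ext h))
    · intro i j
      rw [hY]
      simp only
      rw [com_smul, Matrix.smul_mul, Matrix.mul_smul, trace_smul, trace_smul, his]
      simp
  have hsum : ∑ a, t a * (T a - fB) ≤ M * fB := by
    calc ∑ a, t a * (T a - fB) ≤ ∑ a ∈ S, M * (T a - fB) := by
          rw [← Finset.sum_filter_add_sum_filter_not Finset.univ (fun a => t a ≠ 0 ∧ fB < T a)]
          have h1 : ∑ a ∈ Finset.univ.filter (fun a => t a ≠ 0 ∧ fB < T a), t a * (T a - fB) ≤
              ∑ a ∈ S, M * (T a - fB) := by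
            refine Finset.sum_le_sum fun a ha => ?_
            have h2 := (hSm a).mp ha
            exact mul_le_mul_of_nonneg_right (hle a) (by linarith [h2.2])
          have h3 : ∑ a ∈ Finset.univ.filter (fun a => ¬ (t a ≠ 0 ∧ fB < T a)),
              t a * (T a - fB) ≤ 0 := by
            refine Finset.sum_nonpos fun a ha => ?_
            have h4 := (Finset.mem_filter.mp ha).2
            by_cases h0 : t a = 0
            · rw [h0, zero_mul]
            · have h5 : T a ≤ fB := by
                by_contra h6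
                exact h4 ⟨h0, not_le.mp h6⟩
              exact mul_nonpos_of_nonneg_of_nonpos (ht0 a) (by linarith)
          linarith
      _ = M * (∑ a ∈ S, T a - S.card * fB) := by
          rw [← Finset.mul_sum, Finset.sum_sub_distrib, Finset.sum_const, nsmul_eq_mul]
      _ ≤ M * fB := by
          refine mul_le_mul_of_nonneg_left ?_ hM
          linarith
  have hfin : ∑ a, fro (com B (C a)) = ∑ a, t a * (T a - fB) + (∑ a, fro (C a)) * fB := by
    rw [Finset.sum_mul, ← Finset.sum_add_distrib]
    refine Finset.sum_congr rfl fun a _ => ?_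
    rw [hfc a]
    have : fro (C a) = t a := rfl
    rw [this]; ring
  rw [hfin]
  linarith

end Pool.Agent.W181.LW
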